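import Pool.Agent.Lib_helper5.FormPosDefs

/-!
# Block POS-A : positions and coinduced groups
-/

set_option maxHeartbeats 400000

namespace Pool.Agent.Lib_helper5.Form

open Function

section POSA

variable {K H L : Type} [Group K] [Group H] [Group L]

theorem CoInd.mul_f (π : H →* K) (a b : CoInd π) (ω : K ⧸ π.range) :
    (a * b).1.f ω = a.1.f ω * b.1.f (a.1.x⁻¹ • ω) := rfl

theorem CoInd.mul_x (π : H →* K) (a b : CoInd π) : (a * b).1.x = a.1.x * b.1.x := rfl

theorem CoInd.inv_f (π : H →* K) (a : CoInd π) (ω : K ⧸ π.range) :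
    (a⁻¹).1.f ω = (a.1.f (a.1.x • ω))⁻¹ := rfl

theorem CoInd.inv_x (π : H →* K) (a : CoInd π) : (a⁻¹).1.x = a.1.x⁻¹ := rfl

theorem smul_base {π : H →* K} {x : K} (hx : x ∈ π.range) :
    x • ((1 : K) : K ⧸ π.range) = ((1 : K) : K ⧸ π.range) := by
  have h1 : x • ((1 : K) : K ⧸ π.range) = ((x * 1 : K) : K ⧸ π.range) := rfl
  rw [h1, QuotientGroup.eq]
  simpa using hx

theorem smul_base_iff {π : H →* K} {x : K} :
    x • ((1 : K) : K ⧸ π.range) = ((1 : K) : K ⧸ π.range) ↔ x ∈ π.range := by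
  refine ⟨fun h => ?_, smul_base⟩
  have h1 : x • ((1 : K) : K ⧸ π.range) = ((x * 1 : K) : K ⧸ π.range) := rfl
  rw [h1, QuotientGroup.eq] at h
  simpa using h

theorem CoInd.p_surjective (π : H →* K) : Surjective (CoInd.p π) := by
  intro x
  choose f hf using fun ω => sec_mem π x ω
  exact ⟨⟨⟨f, x⟩, fun ω => hf ω⟩, rfl⟩

/-- conjugates of elements over `1` -/
theorem CoInd.ev_conj (π : H →* K) {l : CoInd π} (h1 : CoInd.p π l = 1) (x : CoInd π) :
    CoInd.ev π (x⁻¹ * l * x) = (x.1.f (x.1.x • ((1 : K) : K ⧸ π.range)))⁻¹ *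
      l.1.f (x.1.x • ((1 : K) : K ⧸ π.range)) * x.1.f (x.1.x • ((1 : K) : K ⧸ π.range)) := by
  have h1' : l.1.x = 1 := h1
  rw [CoInd.ev_apply, CoInd.mul_f, CoInd.mul_f, CoInd.inv_f, CoInd.mul_x, CoInd.inv_x, h1']
  simp

theorem CoInd.eq_one_proof (π : H →* K) {l : CoInd π} (h1 : CoInd.p π l = 1)
    (h2 : ∀ x, CoInd.ev π (x⁻¹ * l * x) = 1) : l = 1 := by
  apply Subtype.ext
  apply WrA.ext
  · funext ω
    obtain ⟨x, hx⟩ := CoInd.p_surjective π (sec π ω)
    have h3 := h2 x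
    rw [CoInd.ev_conj π h1] at h3
    have hx' : x.1.x = sec π ω := hx
    have h4 : x.1.x • ((1 : K) : K ⧸ π.range) = ω := by
      have h5 : x.1.x • ((1 : K) : K ⧸ π.range) = ((x.1.x * 1 : K) : K ⧸ π.range) := rfl
      rw [h5, mul_one, hx', mk_sec]
    rw [h4] at h3
    have h6 : l.1.f ω = 1 := by
      have := congrArg (fun z => x.1.f ω * z * (x.1.f ω)⁻¹) h3
      simpa [mul_assoc] using this
    exact h6
  · exact h1

theorem CoInd.isLift (π : H →* K) : IsLift π (CoInd.p π) (CoInd.ev π) where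
  mul := by
    intro a b ha _
    have ha' : a.1.x ∈ π.range := ha
    rw [CoInd.ev_apply, CoInd.ev_apply, CoInd.ev_apply, CoInd.mul_f,
      smul_base (π.range.inv_mem ha')]
  lift := by
    intro a ha
    have ha' : a.1.x ∈ π.range := ha
    have h := (CoInd.mem_iff π a.1).mp a.2 ((1 : K) : K ⧸ π.range)
    rw [smul_base (π.range.inv_mem ha'), sec_one] at h
    rw [CoInd.ev_apply, h, CoInd.p_apply]
    simp

/-- the elements of the base -/
def CoInd.base (π : H →* K) : (K ⧸ π.range → π.ker) →* CoInd π where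
  toFun f := ⟨⟨fun ω => (f ω : H), 1⟩, by
    intro ω
    have h : π (f ω : H) = 1 := (f ω).2
    simp [h]⟩
  map_one' := by
    apply Subtype.ext
    apply WrA.ext
    · rfl
    · rfl
  map_mul' f g := by
    apply Subtype.ext
    apply WrA.ext
    · funext ω
      change ((f * g) ω : H) = (f ω : H) * (g ((1 : K)⁻¹ • ω) : H)
      simp
    · change (1 : K) = 1 * 1
      simp

theorem CoInd.base_f (π : H →* K) (f : K ⧸ π.range → π.ker) (ω : K ⧸ π.range) :
    (CoInd.base π f).1.f ω = f ω := rfl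

theorem CoInd.p_base (π : H →* K) (f : K ⧸ π.range → π.ker) :
    CoInd.p π (CoInd.base π f) = 1 := rfl

theorem CoInd.exists_base (π : H →* K) {l : CoInd π} (h1 : CoInd.p π l = 1) :
    ∃ f, CoInd.base π f = l := by
  have h1' : l.1.x = 1 := h1
  refine ⟨fun ω => ⟨l.1.f ω, ?_⟩, ?_⟩
  · have h := (CoInd.mem_iff π l.1).mp l.2 ω
    rw [h1'] at h
    rw [MonoidHom.mem_ker, h]
    simp
  · apply Subtype.ext
    apply WrA.ext
    · rfl
    · exact h1'.symm

open Classical in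
/-- the single coordinate elements -/
noncomputable def CoInd.single (π : H →* K) (h : π.ker) : CoInd π :=
  CoInd.base π (Pi.mulSingle ((1 : K) : K ⧸ π.range) h)

theorem CoInd.p_single (π : H →* K) (h : π.ker) : CoInd.p π (CoInd.single π h) = 1 := rfl

theorem CoInd.ev_single (π : H →* K) (h : π.ker) : CoInd.ev π (CoInd.single π h) = h := by
  classical
  rw [CoInd.ev_apply, CoInd.single, CoInd.base_f]
  simp

theorem CoInd.ev_conj_single (π : H →* K) (h : π.ker) (x : CoInd π)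
    (hx : CoInd.p π x ∉ π.range) : CoInd.ev π (x⁻¹ * CoInd.single π h * x) = 1 := by
  classical
  rw [CoInd.ev_conj π (CoInd.p_single π h)]
  have h1 : x.1.x • ((1 : K) : K ⧸ π.range) ≠ ((1 : K) : K ⧸ π.range) := by
    intro h2
    exact hx (smul_base_iff.mp h2)
  have h2 : (CoInd.single π h).1.f (x.1.x • ((1 : K) : K ⧸ π.range)) = 1 := by
    rw [CoInd.single, CoInd.base_f, Pi.mulSingle_eq_of_ne h1]
    rfl
  rw [h2]
  simp

theorem CoInd.full_proof (π : H →* K) : FullLift π (CoInd.p π) (CoInd.ev π) where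
  toIsLift := CoInd.isLift π
  surj := CoInd.p_surjective π
  ind := by
    intro h hh
    exact ⟨CoInd.single π ⟨h, hh⟩, rfl, CoInd.ev_single π _, fun x hx =>
      CoInd.ev_conj_single π _ x hx⟩

/-- The kernel of `p` is generated by conjugates of single coordinate elements. -/
theorem CoInd.ker_le_proof (π : H →* K) [Finite K] (M : Subgroup (CoInd π))
    (hc : ∀ k : K, ∃ c, CoInd.p π c = k ∧ ∀ m ∈ M, c * m * c⁻¹ ∈ M)
    (hs : ∀ l, CoInd.p π l = 1 →
      (∀ x, CoInd.p π x ∉ π.range → CoInd.ev π (x⁻¹ * l * x) = 1) → l ∈ M) :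
    ∀ l, CoInd.p π l = 1 → l ∈ M := by
  classical
  intro l hl
  obtain ⟨f, rfl⟩ := CoInd.exists_base π hl
  have key : f ∈ M.comap (CoInd.base π) := by
    apply Subgroup.pi_mem_of_mulSingle_mem
    intro ω
    rw [Subgroup.mem_comap]
    obtain ⟨c, hc1, hc2⟩ := hc (sec π ω)
    have hc1' : c.1.x = sec π ω := hc1
    have hcω : c.1.x • ((1 : K) : K ⧸ π.range) = ω := by
      have h5 : c.1.x • ((1 : K) : K ⧸ π.range) = ((c.1.x * 1 : K) : K ⧸ π.range) := rfl
      rw [h5, mul_one, hc1', mk_sec]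
    -- the element at the base point
    have hh : (c.1.f ω)⁻¹ * (f ω : H) * c.1.f ω ∈ π.ker := by
      have h1 : π (f ω : H) = 1 := (f ω).2
      rw [MonoidHom.mem_ker]
      simp [h1]
    have h1 : CoInd.single π ⟨_, hh⟩ ∈ M :=
      hs _ rfl (fun x hx => CoInd.ev_conj_single π _ x hx)
    have h2 := hc2 _ h1
    convert h2 using 1
    apply Subtype.ext
    apply WrA.ext
    · funext ω'
      rw [CoInd.mul_f, CoInd.mul_f, CoInd.inv_f, CoInd.mul_x, CoInd.base_f]
      have h3 : (CoInd.single π ⟨_, hh⟩).1.x = 1 := rfl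
      rw [h3, mul_one, smul_inv_smul]
      by_cases hω : ω' = ω
      · subst hω
        have h4 : c.1.x⁻¹ • ω' = ((1 : K) : K ⧸ π.range) := by
          rw [inv_smul_eq_iff, hcω]
        rw [h4, CoInd.single, CoInd.base_f]
        simp [mul_assoc]
      · have h4 : c.1.x⁻¹ • ω' ≠ ((1 : K) : K ⧸ π.range) := by
          intro h5
          rw [inv_smul_eq_iff, hcω] at h5
          exact hω h5
        rw [CoInd.single, CoInd.base_f, Pi.mulSingle_eq_of_ne h4, Pi.mulSingle_eq_of_ne hω]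
        simp
    · rw [CoInd.mul_x, CoInd.mul_x, CoInd.inv_x]
      have h3 : (CoInd.single π ⟨_, hh⟩).1.x = 1 := rfl
      rw [h3]
      have h4 : (CoInd.base π (Pi.mulSingle ω (f ω))).1.x = 1 := rfl
      rw [h4]
      simp
  exact key

theorem CoInd.prime_dvd_proof (π : H →* K) [Finite K] [Finite H] {q : ℕ} (hq : q.Prime)
    (h : q ∣ Nat.card (CoInd.p π).ker) : q ∣ Nat.card π.ker := by
  have e : (K ⧸ π.range → π.ker) ≃ (CoInd.p π).ker := by
    refine Equiv.ofBijective (fun f => ⟨CoInd.base π f, rfl⟩) ⟨?_, ?_⟩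
    · intro f g hfg
      have h1 : CoInd.base π f = CoInd.base π g := congrArg Subtype.val hfg
      funext ω
      apply Subtype.ext
      exact congrArg (fun w : CoInd π => w.1.f ω) h1
    · rintro ⟨l, hl⟩
      obtain ⟨f, hf⟩ := CoInd.exists_base π hl
      exact ⟨f, Subtype.ext hf⟩
  rw [← Nat.card_congr e, Nat.card_fun] at h
  exact hq.dvd_of_dvd_pow h

theorem exists_up_proof {π : H →* K} {p : L →* K} {e : L → H} (hL : IsLift π p e)
    (hp : Surjective p) : ∃ Ψ : L →* CoInd π, (∀ l, CoInd.p π (Ψ l) = p l) ∧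
      ∀ l, p l ∈ π.range → CoInd.ev π (Ψ l) = e l := by
  classical
  have hs0 : ∃ s : K ⧸ π.range → L, (∀ ω, p (s ω) = sec π ω) ∧
      s ((1 : K) : K ⧸ π.range) = 1 := by
    choose s hs using fun ω => hp (sec π ω)
    refine ⟨fun ω => if ω = ((1 : K) : K ⧸ π.range) then 1 else s ω, ?_, by simp⟩
    intro ω
    by_cases hω : ω = ((1 : K) : K ⧸ π.range)
    · simp [hω, sec_one]
    · simp [hω, hs]
  obtain ⟨s, hs, hs1⟩ := hs0
  have hmem : ∀ l ω, p ((s ω)⁻¹ * l * s ((p l)⁻¹ • ω)) ∈ π.range := by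
    intro l ω
    rw [map_mul, map_mul, map_inv, hs, hs]
    exact sec_mem π (p l) ω
  have hmul : ∀ (l m : L) (ω : K ⧸ π.range),
      e ((s ω)⁻¹ * (l * m) * s ((p (l * m))⁻¹ • ω)) =
        e ((s ω)⁻¹ * l * s ((p l)⁻¹ • ω)) *
          e ((s ((p l)⁻¹ • ω))⁻¹ * m * s ((p m)⁻¹ • (p l)⁻¹ • ω)) := by
    intro l m ω
    rw [← hL.mul _ _ (hmem l ω) (hmem m _)]
    congr 1
    rw [map_mul, mul_inv_rev, mul_smul]
    group
  have hone : e 1 = 1 := by
    have h := hL.mul 1 1 (by rw [map_one]; exact one_mem _) (by rw [map_one]; exact one_mem _)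
    rw [mul_one] at h
    exact (left_eq_mul.mp h)
  refine ⟨{ toFun := fun l => ⟨⟨fun ω => e ((s ω)⁻¹ * l * s ((p l)⁻¹ • ω)), p l⟩, ?_⟩,
            map_one' := ?_, map_mul' := ?_ }, ?_, ?_⟩
  · intro ω
    change π (e ((s ω)⁻¹ * l * s ((p l)⁻¹ • ω))) = (sec π ω)⁻¹ * p l * sec π ((p l)⁻¹ • ω)
    rw [hL.lift _ (hmem l ω), map_mul, map_mul, map_inv, hs, hs]
  · apply Subtype.ext
    apply WrA.ext
    · funext ω
      change e ((s ω)⁻¹ * 1 * s ((p 1)⁻¹ • ω)) = 1
      simp [hone]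
    · change p 1 = 1
      exact map_one p
  · intro l m
    apply Subtype.ext
    apply WrA.ext
    · funext ω
      exact hmul l m ω
    · exact map_mul p l m
  · intro l
    rfl
  · intro l hl
    change e ((s ((1 : K) : K ⧸ π.range))⁻¹ * l * s ((p l)⁻¹ • ((1 : K) : K ⧸ π.range))) = e l
    rw [smul_base (π.range.inv_mem hl), hs1]
    simp

theorem CoInd.ev_one (π : H →* K) : CoInd.ev π 1 = 1 := rfl

/-- values of conjugates of elements over `1` by elements over the range -/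
theorem CoInd.ev_conj_range (π : H →* K) {l : CoInd π} (h1 : CoInd.p π l = 1) (x : CoInd π)
    (hx : CoInd.p π x ∈ π.range) :
    CoInd.ev π (x⁻¹ * l * x) = (CoInd.ev π x)⁻¹ * CoInd.ev π l * CoInd.ev π x := by
  rw [CoInd.ev_conj π h1]
  have hx' : x.1.x ∈ π.range := hx
  rw [smul_base hx']
  rfl

theorem up_eq_one_aux {π : H →* K} {p : L →* K} {e : L → H} (hp : Surjective p)
    (Ψ : L →* CoInd π) (h1 : ∀ l, CoInd.p π (Ψ l) = p l)
    (h2 : ∀ l, p l ∈ π.range → CoInd.ev π (Ψ l) = e l) (l : L) (hl : p l = 1) (c : CoInd π) :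
    ∃ (x : L) (b : CoInd π), p x = CoInd.p π c ∧ CoInd.p π b = 1 ∧
      CoInd.ev π (c⁻¹ * Ψ l * c) = (CoInd.ev π b)⁻¹ * e (x⁻¹ * l * x) * CoInd.ev π b := by
  obtain ⟨x, hx⟩ := hp (CoInd.p π c)
  refine ⟨x, (Ψ x)⁻¹ * c, hx, ?_, ?_⟩
  · rw [map_mul, map_inv, h1, hx]
    simp
  · have hb : CoInd.p π ((Ψ x)⁻¹ * c) = 1 := by
      rw [map_mul, map_inv, h1, hx]
      simp
    have h3 : c⁻¹ * Ψ l * c = ((Ψ x)⁻¹ * c)⁻¹ * Ψ (x⁻¹ * l * x) * ((Ψ x)⁻¹ * c) := by
      rw [map_mul, map_mul, map_inv]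
      group
    have h4 : CoInd.p π (Ψ (x⁻¹ * l * x)) = 1 := by
      rw [h1]
      simp [hl]
    rw [h3, CoInd.ev_conj_range π h4 _ (by rw [hb]; exact one_mem _)]
    rw [h2 (x⁻¹ * l * x) (by simp [hl, one_mem])]

theorem up_eq_one_proof {π : H →* K} {p : L →* K} {e : L → H} (hL : IsLift π p e)
    (hp : Surjective p)
    (Ψ : L →* CoInd π) (h1 : ∀ l, CoInd.p π (Ψ l) = p l)
    (h2 : ∀ l, p l ∈ π.range → CoInd.ev π (Ψ l) = e l) (l : L) :
    Ψ l = 1 ↔ p l = 1 ∧ ∀ x, e (x⁻¹ * l * x) = 1 := by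
  constructor
  · intro h
    have hpl : p l = 1 := by rw [← h1, h, map_one]
    refine ⟨hpl, fun x => ?_⟩
    rw [← h2 (x⁻¹ * l * x) (by simp [hpl, one_mem])]
    rw [map_mul, map_mul, h, map_inv]
    simp [CoInd.ev_one]
  · rintro ⟨hpl, h⟩
    apply CoInd.eq_one_proof π (by rw [h1, hpl])
    intro c
    obtain ⟨x, b, _, _, h3⟩ := up_eq_one_aux hp Ψ h1 h2 l hpl c
    rw [h3, h x]
    simp

theorem up_surjective_proof [Finite K] {π : H →* K} {p : L →* K} {e : L → H}
    (hL : FullLift π p e)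
    (Ψ : L →* CoInd π) (h1 : ∀ l, CoInd.p π (Ψ l) = p l)
    (h2 : ∀ l, p l ∈ π.range → CoInd.ev π (Ψ l) = e l) : Surjective Ψ := by
  have hker : ∀ l, CoInd.p π l = 1 → l ∈ Ψ.range := by
    apply CoInd.ker_le_proof π Ψ.range
    · intro k
      obtain ⟨x, hx⟩ := hL.surj k
      refine ⟨Ψ x, by rw [h1, hx], ?_⟩
      rintro _ ⟨m, rfl⟩
      exact ⟨x * m * x⁻¹, by simp⟩
    · intro l hl hl'
      have h3 : π (CoInd.ev π l) = 1 := by
        rw [(CoInd.isLift π).lift l (by rw [hl]; exact one_mem _), hl]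
      obtain ⟨l', hl1, hl2, hl3⟩ := hL.ind _ h3
      refine ⟨l', ?_⟩
      have h4 : CoInd.p π (Ψ l') = 1 := by rw [h1, hl1]
      have h5 : CoInd.p π (Ψ l' * l⁻¹) = 1 := by rw [map_mul, map_inv, h4, hl]; simp
      have h6 : Ψ l' * l⁻¹ = 1 := by
        apply CoInd.eq_one_proof π h5
        intro c
        have h7 : c⁻¹ * (Ψ l' * l⁻¹) * c = (c⁻¹ * Ψ l' * c) * (c⁻¹ * l⁻¹ * c) := by group
        have h8 : CoInd.p π (c⁻¹ * Ψ l' * c) ∈ π.range := by
          simp [h4, one_mem]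
        have h9 : CoInd.p π (c⁻¹ * l⁻¹ * c) ∈ π.range := by
          simp [hl, one_mem]
        have hli : CoInd.p π l⁻¹ = 1 := by rw [map_inv, hl, inv_one]
        rw [h7, (CoInd.isLift π).mul _ _ h8 h9]
        by_cases hc : CoInd.p π c ∈ π.range
        · rw [CoInd.ev_conj_range π h4 c hc, CoInd.ev_conj_range π hli c hc,
            h2 l' (by rw [hl1]; exact one_mem _), hl2]
          have h10 : CoInd.ev π l * CoInd.ev π l⁻¹ = 1 := by
            rw [← (CoInd.isLift π).mul l l⁻¹ (by rw [hl]; exact one_mem _)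
              (by rw [hli]; exact one_mem _), mul_inv_cancel, CoInd.ev_one]
          calc (CoInd.ev π c)⁻¹ * CoInd.ev π l * CoInd.ev π c *
                ((CoInd.ev π c)⁻¹ * CoInd.ev π l⁻¹ * CoInd.ev π c)
              = (CoInd.ev π c)⁻¹ * (CoInd.ev π l * CoInd.ev π l⁻¹) * CoInd.ev π c := by group
            _ = 1 := by rw [h10]; simp
        · obtain ⟨x, b, hx, hb, h11⟩ := up_eq_one_aux hL.surj Ψ h1 h2 l' hl1 c
          rw [h11, hl3 x (by rw [hx]; exact hc)]
          have h12 : CoInd.ev π (c⁻¹ * l⁻¹ * c) = 1 := by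
            have h13 := hl' c hc
            have h14 : CoInd.p π (c⁻¹ * l * c) ∈ π.range := by simp [hl, one_mem]
            have h15 := (CoInd.isLift π).mul _ _ h14 h9
            have h16 : (c⁻¹ * l * c) * (c⁻¹ * l⁻¹ * c) = 1 := by group
            rw [h16, CoInd.ev_one, h13, one_mul] at h15
            exact h15.symm
          rw [h12]
          simp
      exact mul_inv_eq_one.mp h6
  intro c
  obtain ⟨x, hx⟩ := hL.surj (CoInd.p π c)
  obtain ⟨m, hm⟩ := hker ((Ψ x)⁻¹ * c) (by rw [map_mul, map_inv, h1, hx]; simp)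
  exact ⟨x * m, by rw [map_mul, hm]; simp⟩

end POSA

end Pool.Agent.Lib_helper5.Form
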