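import Pool.Agent.Lib_helper59.Lang.Defs

/-! Block H1 of MP_45e720_ag: ratios of the homogeneous coordinates of an entire curve. -/

open Complex Metric Function MeromorphicOn Filter Topology

namespace LangFC

theorem h1_dv_eq_zero_iff {f : ℂ → ℂ} (hf : Nice f) (z : ℂ) :
    dv f z = 0 ↔ meromorphicOrderAt f z = 0 := by
  have h : dv f z = (meromorphicOrderAt f z).untop₀ :=
    MeromorphicOn.divisor_apply (fun w _ => hf.meromorphic w) (Set.mem_univ z)
  rw [h]
  obtain ⟨n, hn⟩ := WithTop.ne_top_iff_exists.1 (hf.ord z)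
  rw [← hn]
  simp

theorem h1_eventually_dv (f : ℂ → ℂ) (a : ℂ) : ∀ᶠ z in 𝓝[≠] a, dv f z = 0 := by
  have h := (dv f).eq_zero_codiscreteWithin
  have h2 := (mem_codiscreteWithin_iff_forall_mem_nhdsNE.1 h) a (Set.mem_univ a)
  filter_upwards [h2] with z hz
  simpa using hz

theorem h1_eventually_good {ι : Type*} (I : Finset ι) (u : ι → ℂ → ℂ) (a : ℂ) :
    ∀ᶠ z in 𝓝[≠] a, ∀ i ∈ I, dv (u i) z = 0 := by
  rw [Filter.eventually_all_finset]
  intro i _
  exact h1_eventually_dv (u i) a

/-- good points exist -/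
theorem exists_good_point_pr {ι : Type*} (I : Finset ι) (u : ι → ℂ → ℂ)
    (_hu : ∀ i ∈ I, Nice (u i)) : ∃ z : ℂ, ∀ i ∈ I, dv (u i) z = 0 :=
  (h1_eventually_good I u 0).exists

section
variable {n : ℕ}

/-- local lift -/
theorem h1_lift {f : ℂ → Projectivization ℂ (Fin (n + 1) → ℂ)} (hf : IsHolo f) (a : ℂ) :
    ∃ h : ℂ → Fin (n + 1) → ℂ, (∀ i, AnalyticAt ℂ (fun z => h z i) a) ∧
      (∃ h0 : h a ≠ 0, f a = Projectivization.mk ℂ (h a) h0) ∧
      ∀ᶠ z in 𝓝 a, ∃ c : ℂ, c ≠ 0 ∧ ∀ i, h z i = c * (f z).rep i := by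
  obtain ⟨h, hd, hh⟩ := hf a
  refine ⟨h, ?_, hh.self_of_nhds, ?_⟩
  · intro i
    have : ∀ᶠ z in 𝓝 a, DifferentiableAt ℂ (fun z => h z i) z := by
      filter_upwards [hd] with z hz
      exact (differentiableAt_pi.1 hz) i
    exact analyticAt_iff_eventually_differentiableAt.2 this
  · filter_upwards [hh] with z hz
    obtain ⟨hz0, hz1⟩ := hz
    obtain ⟨c, hc⟩ := Projectivization.exists_smul_eq_mk_rep ℂ (h z) hz0
    refine ⟨((c⁻¹ : ℂˣ) : ℂ), (c⁻¹).ne_zero, fun i => ?_⟩
    rw [hz1, ← hc]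
    simp [Units.smul_def]

theorem h1_dichotomy {f : ℂ → Projectivization ℂ (Fin (n + 1) → ℂ)} (hf : IsHolo f)
    (i : Fin (n + 1)) :
    (∀ z, (f z).rep i = 0) ∨ (∀ a, ∀ᶠ z in 𝓝[≠] a, (f z).rep i ≠ 0) := by
  set T : Set ℂ := {a | ∀ᶠ z in 𝓝 a, (f z).rep i = 0} with hT
  have hTc : ∀ a, a ∉ T → ∀ᶠ z in 𝓝[≠] a, (f z).rep i ≠ 0 := by
    intro a ha
    obtain ⟨h, han, -, hev⟩ := h1_lift hf a
    rcases (han i).eventually_eq_zero_or_eventually_ne_zero with h0 | h0
    · exfalso
      apply ha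
      show ∀ᶠ z in 𝓝 a, (f z).rep i = 0
      filter_upwards [h0, hev] with z hz1 hz2
      obtain ⟨c, hc, hci⟩ := hz2
      have := hci i
      rw [hz1] at this
      rcases mul_eq_zero.1 this.symm with h' | h'
      · exact absurd h' hc
      · exact h'
    · filter_upwards [h0, hev.filter_mono nhdsWithin_le_nhds] with z hz1 hz2
      obtain ⟨c, hc, hci⟩ := hz2
      intro h'
      apply hz1
      rw [hci i, h', mul_zero]
  have hopen : IsOpen T := isOpen_setOfPred_eventually_nhds
  have hclosed : IsClosed T := by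
    rw [← isOpen_compl_iff, isOpen_iff_mem_nhds]
    intro a ha
    have h1 := hTc a ha
    rw [eventually_nhdsWithin_iff] at h1
    filter_upwards [h1] with b hb
    by_cases hba : b = a
    · rw [hba]; exact ha
    · intro hbT
      have hbT2 : ∀ᶠ z in 𝓝 b, (f z).rep i = 0 := hbT
      exact hb hba hbT2.self_of_nhds
  rcases isClopen_iff.1 ⟨hclosed, hopen⟩ with h | h
  · right
    intro a
    apply hTc a
    rw [h]
    exact Set.notMem_empty a
  · left
    intro z
    have hz : z ∈ T := by rw [h]; exact Set.mem_univ z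
    have hz2 : ∀ᶠ y in 𝓝 z, (f y).rep i = 0 := hz
    exact hz2.self_of_nhds

open Classical in
theorem exists_ratios_pr (f : ℂ → Projectivization ℂ (Fin (n + 1) → ℂ)) (hf : IsHolo f) :
    ∃ (I : Finset (Fin (n + 1))) (u : Fin (n + 1) → ℂ → ℂ), (∀ i ∈ I, Nice (u i)) ∧
      (∀ i, i ∉ I → ∀ z, u i z = 0) ∧
      (∀ z, (∀ i ∈ I, dv (u i) z = 0) →
        ∃ h : (fun i => u i z) ≠ 0, f z = Projectivization.mk ℂ (fun i => u i z) h) ∧
      ((∀ i ∈ I, ∀ j ∈ I, ∃ e : ℂ, ∀ z, (∀ i ∈ I, dv (u i) z = 0) → u i z = e * u j z) →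
        ∀ z w, f z = f w) := by
  set I : Finset (Fin (n + 1)) := Finset.univ.filter fun i => ¬ ∀ z, (f z).rep i = 0 with hI
  have hmem : ∀ i, i ∈ I ↔ ¬ ∀ z, (f z).rep i = 0 := fun i => by simp [hI]
  have hne : ∀ i ∈ I, ∀ a, ∀ᶠ z in 𝓝[≠] a, (f z).rep i ≠ 0 := by
    intro i hi
    rcases h1_dichotomy hf i with h | h
    · exact absurd h ((hmem i).1 hi)
    · exact h
  have hrep : ∀ z, ∃ j, (f z).rep j ≠ 0 := by
    intro z
    by_contra hcon
    push Not at hcon
    exact (f z).rep_nonzero (funext hcon)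
  obtain ⟨i0, hi0'⟩ := hrep 0
  have hi0 : i0 ∈ I := (hmem i0).2 fun h => hi0' (h 0)
  set U : Fin (n + 1) → ℂ → ℂ := fun i z => (f z).rep i / (f z).rep i0 with hU
  have hloc : ∀ (a : ℂ) (h : ℂ → Fin (n + 1) → ℂ),
      (∀ᶠ z in 𝓝 a, ∃ c : ℂ, c ≠ 0 ∧ ∀ i, h z i = c * (f z).rep i) → ∀ i,
      U i =ᶠ[𝓝 a] fun z => h z i / h z i0 := by
    intro a h hev i
    filter_upwards [hev] with z hz
    obtain ⟨c, hc, hci⟩ := hz
    show (f z).rep i / (f z).rep i0 = h z i / h z i0
    rw [hci i, hci i0, mul_div_mul_left _ _ hc]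
  have hmer : ∀ i, MeromorphicOn (U i) Set.univ := by
    intro i a _
    obtain ⟨h, han, -, hev⟩ := h1_lift hf a
    have h1 : MeromorphicAt (fun z => h z i / h z i0) a :=
      (han i).meromorphicAt.fun_div (han i0).meromorphicAt
    exact h1.congr ((hloc a h hev i).symm.filter_mono nhdsWithin_le_nhds)
  set u : Fin (n + 1) → ℂ → ℂ := fun i =>
    if i ∈ I then toMeromorphicNFOn (U i) Set.univ else 0 with hu
  have huI : ∀ i ∈ I, u i = toMeromorphicNFOn (U i) Set.univ := fun i hi => by simp [hu, hi]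
  have huU : ∀ i ∈ I, ∀ a, u i =ᶠ[𝓝[≠] a] U i := by
    intro i hi a
    rw [huI i hi]
    exact (hmer i).toMeromorphicNFOn_eq_self_on_nhdsNE (Set.mem_univ a)
  have hnice : ∀ i ∈ I, Nice (u i) := by
    intro i hi
    refine ⟨fun z => ?_, fun z => ?_⟩
    · rw [huI i hi]
      exact meromorphicNFOn_toMeromorphicNFOn (U i) Set.univ (Set.mem_univ z)
    · rw [meromorphicOrderAt_congr (huU i hi z),
        meromorphicOrderAt_ne_top_iff_eventually_ne_zero (hmer i z (Set.mem_univ z))]
      filter_upwards [hne i hi z, hne i0 hi0 z] with w h1 h2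
      exact div_ne_zero h1 h2
  have hu0 : ∀ i, i ∉ I → ∀ z, u i z = 0 := fun i hi z => by simp [hu, hi]
  refine ⟨I, u, hnice, hu0, ?_, ?_⟩
  · intro a ha
    obtain ⟨h, han, ⟨h0, hfa⟩, hev⟩ := h1_lift hf a
    have hrepa : ∃ c : ℂ, c ≠ 0 ∧ ∀ i, h a i = c * (f a).rep i := hev.self_of_nhds
    obtain ⟨c, hc, hci⟩ := hrepa
    have hhne : ∀ i ∈ I, ∀ᶠ z in 𝓝[≠] a, h z i ≠ 0 := by
      intro i hi
      filter_upwards [hne i hi a, hev.filter_mono nhdsWithin_le_nhds] with z h1 h2
      obtain ⟨c', hc', hci'⟩ := h2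
      rw [hci' i]
      exact mul_ne_zero hc' h1
    have hordne : ∀ i ∈ I, meromorphicOrderAt (fun z => h z i) a ≠ ⊤ := by
      intro i hi
      exact (meromorphicOrderAt_ne_top_iff_eventually_ne_zero (han i).meromorphicAt).2 (hhne i hi)
    have hord : ∀ i ∈ I, meromorphicOrderAt (fun z => h z i) a =
        meromorphicOrderAt (fun z => h z i0) a := by
      intro i hi
      have h1 : meromorphicOrderAt (u i) a = 0 := (h1_dv_eq_zero_iff (hnice i hi) a).1 (ha i hi)
      have h2 : meromorphicOrderAt (u i) a = meromorphicOrderAt (fun z => h z i / h z i0) a :=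
        meromorphicOrderAt_congr ((huU i hi a).trans
          ((hloc a h hev i).filter_mono nhdsWithin_le_nhds))
      have h3 : meromorphicOrderAt (fun z => h z i / h z i0) a =
          meromorphicOrderAt (fun z => h z i) a - meromorphicOrderAt (fun z => h z i0) a :=
        fun_meromorphicOrderAt_div (han i).meromorphicAt (han i0).meromorphicAt
      rw [h1, h3] at h2
      obtain ⟨p, hp⟩ := WithTop.ne_top_iff_exists.1 (hordne i hi)
      obtain ⟨q, hq⟩ := WithTop.ne_top_iff_exists.1 (hordne i0 hi0)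
      rw [← hp, ← hq] at h2 ⊢
      have h4 : ((p - q : ℤ) : WithTop ℤ) = 0 := by
        rw [h2]
        rfl
      have h5 : p - q = 0 := by exact_mod_cast h4
      have h6 : p = q := by omega
      rw [h6]
    have hj : ∃ j, h a j ≠ 0 := by
      by_contra hcon
      push Not at hcon
      exact h0 (funext hcon)
    obtain ⟨j, hj⟩ := hj
    have hjI : j ∈ I := by
      rw [hmem]
      intro hall
      apply hj
      rw [hci j, hall a, mul_zero]
    have hj0 : meromorphicOrderAt (fun z => h z j) a = 0 :=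
      (han j).meromorphicNFAt.meromorphicOrderAt_eq_zero_iff.2 hj
    have hi00 : h a i0 ≠ 0 := by
      have h1 : meromorphicOrderAt (fun z => h z i0) a = 0 := by rw [← hord j hjI, hj0]
      exact (han i0).meromorphicNFAt.meromorphicOrderAt_eq_zero_iff.1 h1
    have hval : ∀ i, u i a = (h a i0)⁻¹ * h a i := by
      intro i
      by_cases hi : i ∈ I
      · have h1 : AnalyticAt ℂ (fun z => h z i / h z i0) a := (han i).fun_div (han i0) hi00
        have h2 : u i =ᶠ[𝓝 a] fun z => h z i / h z i0 :=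
          (((hnice i hi).nf a).eventuallyEq_nhdsNE_iff_eventuallyEq_nhds h1.meromorphicNFAt).1
            ((huU i hi a).trans ((hloc a h hev i).filter_mono nhdsWithin_le_nhds))
        have h3 := h2.self_of_nhds
        rw [h3]
        field_simp
      · rw [hu0 i hi a]
        have h1 : (f a).rep i = 0 := by
          by_contra hcon
          exact hi ((hmem i).2 fun hall => hcon (hall a))
        rw [hci i, h1]
        simp
    have hfun : (fun i => u i a) = (h a i0)⁻¹ • h a := by
      funext i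
      rw [hval i]
      rfl
    have hne0 : (fun i => u i a) ≠ 0 := by
      rw [hfun]
      exact smul_ne_zero (inv_ne_zero hi00) h0
    refine ⟨hne0, ?_⟩
    rw [hfa, Projectivization.mk_eq_mk_iff']
    refine ⟨h a i0, ?_⟩
    rw [hfun, smul_smul, mul_inv_cancel₀ hi00, one_smul]
  · intro hconst
    have hE : ∃ E : Fin (n + 1) → ℂ, (∀ i ∈ I, ∀ z, (∀ i ∈ I, dv (u i) z = 0) →
        u i z = E i * u i0 z) ∧ ∀ i, i ∉ I → E i = 0 := by
      choose! e he using fun i (hi : i ∈ I) => hconst i hi i0 hi0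
      refine ⟨fun i => if i ∈ I then e i else 0, fun i hi z hz => ?_, fun i hi => by simp [hi]⟩
      simp only [hi, if_true]
      exact he i hi z hz
    obtain ⟨E, hE1, hE2⟩ := hE
    have hkey : ∀ a, ∃ hE0 : E ≠ 0, f a = Projectivization.mk ℂ E hE0 := by
      intro a
      obtain ⟨h, han, ⟨h0, hfa⟩, hev⟩ := h1_lift hf a
      have hcoord : ∀ i, h a i = E i * h a i0 := by
        intro i
        by_cases hi : i ∈ I
        · have hev2 : (fun z => h z i) =ᶠ[𝓝[≠] a] fun z => E i * h z i0 := by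
            filter_upwards [h1_eventually_good I u a, huU i hi a, huU i0 hi0 a,
              (hloc a h hev i).filter_mono nhdsWithin_le_nhds,
              (hloc a h hev i0).filter_mono nhdsWithin_le_nhds, hne i0 hi0 a,
              hev.filter_mono nhdsWithin_le_nhds] with z hz1 hz2 hz3 hz4 hz5 hz6 hz7
            obtain ⟨c, hc, hci⟩ := hz7
            have hz8 : h z i0 ≠ 0 := by
              rw [hci i0]
              exact mul_ne_zero hc hz6
            have h9 := hE1 i hi z hz1
            rw [hz2, hz3, hz4, hz5, div_self hz8, mul_one, div_eq_iff hz8] at h9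
            exact h9
          have hc1 : Tendsto (fun z => h z i) (𝓝[≠] a) (𝓝 (h a i)) :=
            ((han i).continuousAt.tendsto).mono_left nhdsWithin_le_nhds
          have hc2 : Tendsto (fun z => E i * h z i0) (𝓝[≠] a) (𝓝 (E i * h a i0)) :=
            (((han i0).continuousAt.tendsto).mono_left nhdsWithin_le_nhds).const_mul (E i)
          exact tendsto_nhds_unique (hc1.congr' hev2) hc2
        · rw [hE2 i hi, zero_mul]
          obtain ⟨c, hc, hci⟩ := hev.self_of_nhds
          have h1 : (f a).rep i = 0 := by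
            by_contra hcon
            exact hi ((hmem i).2 fun hall => hcon (hall a))
          rw [hci i, h1, mul_zero]
      have hi00 : h a i0 ≠ 0 := by
        intro hcon
        apply h0
        funext i
        rw [hcoord i, hcon, mul_zero]
        rfl
      have hE0 : E ≠ 0 := by
        intro hcon
        apply hi00
        rw [hcoord i0, hcon]
        simp
      refine ⟨hE0, ?_⟩
      rw [hfa, Projectivization.mk_eq_mk_iff']
      refine ⟨h a i0, ?_⟩
      funext i
      rw [hcoord i]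
      simp [mul_comm]
    intro z w
    obtain ⟨h1, h2⟩ := hkey z
    obtain ⟨h3, h4⟩ := hkey w
    rw [h2, h4]

end

end LangFC
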